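import Pool.Agent.X189.BS.Stm

/-! List lemmas for part `S_E2` of MP_4f027a_co. -/

set_option linter.unusedSimpArgs false

namespace Pool.Agent.X211.BSE

open Pool.Agent.X189.BS

variable {n : ℕ}

theorem mem_loc {x : Fin (n + 1)} {L : List (Fin (n + 1) × Fin (n + 1))}
    {e : Fin (n + 1) × Fin (n + 1)} : e ∈ loc x L ↔ e ∈ L ∧ (e.1 = x ∨ e.2 = x) := by
  simp [loc]

theorem mem_eqv {L L' : List (Fin (n + 1) × Fin (n + 1))} (h : Eqv L L')
    (e : Fin (n + 1) × Fin (n + 1)) : e ∈ L ↔ e ∈ L' := by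
  have h1 := h e.1
  have h2 : e ∈ loc e.1 L ↔ e ∈ loc e.1 L' := by rw [h1]
  simpa [mem_loc] using h2

theorem eqv_symm {L L' : List (Fin (n + 1) × Fin (n + 1))} (h : Eqv L L') : Eqv L' L :=
  fun x => (h x).symm

theorem eqv_trans {L L' L'' : List (Fin (n + 1) × Fin (n + 1))} (h : Eqv L L')
    (h' : Eqv L' L'') : Eqv L L'' :=
  fun x => (h x).trans (h' x)

theorem bef_loc {x : Fin (n + 1)} {L : List (Fin (n + 1) × Fin (n + 1))}
    {e f : Fin (n + 1) × Fin (n + 1)} (hf : f.1 = x ∨ f.2 = x) (he : e.1 = x ∨ e.2 = x) :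
    [f, e].Sublist L ↔ [f, e].Sublist (loc x L) := by
  constructor
  · intro h
    have h2 := h.filter (fun e => decide (e.1 = x ∨ e.2 = x))
    have h3 : [f, e].filter (fun e => decide (e.1 = x ∨ e.2 = x)) = [f, e] := by
      rw [List.filter_eq_self]
      intro g hg
      simp only [List.mem_cons, List.not_mem_nil, or_false] at hg
      rcases hg with rfl | rfl
      · simpa using hf
      · simpa using he
    rw [h3] at h2
    exact h2
  · intro h
    exact h.trans List.filter_sublist

theorem bef_eqv {x : Fin (n + 1)} {L L' : List (Fin (n + 1) × Fin (n + 1))} (h : Eqv L L')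
    {e f : Fin (n + 1) × Fin (n + 1)} (hf : f.1 = x ∨ f.2 = x) (he : e.1 = x ∨ e.2 = x) :
    [f, e].Sublist L ↔ [f, e].Sublist L' := by
  rw [bef_loc (L := L) hf he, bef_loc (L := L') hf he, h x]

theorem nodup_eqv {L L' : List (Fin (n + 1) × Fin (n + 1))} (h : Eqv L L') (hL : L.Nodup) :
    L'.Nodup := by
  rw [List.nodup_iff_sublist] at hL ⊢
  intro e he
  exact hL e ((bef_eqv (x := e.1) h (Or.inl rfl) (Or.inl rfl)).2 he)

theorem bef_iff {L P S : List (Fin (n + 1) × Fin (n + 1))} (hL : L.Nodup)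
    {e f : Fin (n + 1) × Fin (n + 1)} (h : L = P ++ e :: S) : [f, e].Sublist L ↔ f ∈ P := by
  subst h
  have hd := List.nodup_append.1 hL
  have heP : e ∉ P := fun he => hd.2.2 e he e (List.mem_cons_self ..) rfl
  have heS : e ∉ S := (List.nodup_cons.1 hd.2.1).1
  constructor
  · intro h
    rw [List.cons_sublist_iff] at h
    obtain ⟨r1, r2, h12, hf, he⟩ := h
    rw [List.singleton_sublist] at he
    rw [List.append_eq_append_iff] at h12
    rcases h12 with ⟨u, hu1, hu2⟩ | ⟨u, hu1, hu2⟩
    · -- r1 = P ++ u, e :: S = u ++ r2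
      subst hu1
      cases u with
      | nil => simpa using hf
      | cons v u =>
        rw [List.cons_append, List.cons.injEq] at hu2
        obtain ⟨rfl, rfl⟩ := hu2
        exact absurd (List.mem_append_right _ he) heS
    · subst hu1
      exact List.mem_append_left _ hf
  · intro h
    have h1 : [f].Sublist P := List.singleton_sublist.2 h
    have h2 : [e].Sublist (e :: S) := List.singleton_sublist.2 (List.mem_cons_self ..)
    exact h1.append h2

theorem nodup_of_split {L : List (Fin (n + 1) × Fin (n + 1))}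
    (h : ∀ P e S, L = P ++ e :: S → e ∉ P) : L.Nodup := by
  rw [List.nodup_iff_sublist]
  intro e he
  rw [List.cons_sublist_iff] at he
  obtain ⟨r1, r2, h12, hf, he⟩ := he
  rw [List.singleton_sublist] at he
  obtain ⟨s, t, rfl⟩ := List.append_of_mem he
  exact h (r1 ++ s) e t (by rw [h12]; simp) (List.mem_append_left _ hf)

/-- symmetric form of validity -/
def V2 (a c : Fin (n + 1)) (L : List (Fin (n + 1) × Fin (n + 1))) : Prop :=
  L.Nodup ∧ ∀ e ∈ L, a ≤ e.1 ∧ e.1 < e.2 ∧ e.2 ≤ c ∧
    (∀ z, e.2 < z → z ≤ c → ([(e.2, z), e].Sublist L ↔ [(e.1, z), e].Sublist L)) ∧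
    (∀ z, a ≤ z → z < e.1 → ([(z, e.1), e].Sublist L ↔ [(z, e.2), e].Sublist L)) ∧
    (∀ z, e.1 < z → z < e.2 → ([(e.1, z), e].Sublist L ↔ ¬ [(z, e.2), e].Sublist L))

theorem val_iff {a c : Fin (n + 1)} {L : List (Fin (n + 1) × Fin (n + 1))} :
    Val a c L ↔ V2 a c L := by
  constructor
  · intro h
    have hn : L.Nodup := nodup_of_split fun P e S hL => (h P e S hL).2.2.2.1
    refine ⟨hn, fun e he => ?_⟩
    obtain ⟨P, S, hL⟩ := List.append_of_mem he
    obtain ⟨h1, h2, h3, h4, h5, h6, h7⟩ := h P e S hL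
    refine ⟨h1, h2, h3, fun z hz hz' => ?_, fun z hz hz' => ?_, fun z hz hz' => ?_⟩
    · rw [bef_iff hn hL, bef_iff hn hL]; exact h5 z hz hz'
    · rw [bef_iff hn hL, bef_iff hn hL]; exact h6 z hz hz'
    · rw [bef_iff hn hL, bef_iff hn hL]; exact h7 z hz hz'
  · rintro ⟨hn, h⟩ P e S hL
    obtain ⟨h1, h2, h3, h4, h5, h6⟩ := h e (by rw [hL]; simp)
    refine ⟨h1, h2, h3, ?_, fun z hz hz' => ?_, fun z hz hz' => ?_, fun z hz hz' => ?_⟩
    · intro heP
      rw [hL] at hn
      exact (List.nodup_append.1 hn).2.2 e heP e (List.mem_cons_self ..) rfl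
    · rw [← bef_iff hn hL, ← bef_iff hn hL]; exact h4 z hz hz'
    · rw [← bef_iff hn hL, ← bef_iff hn hL]; exact h5 z hz hz'
    · rw [← bef_iff hn hL, ← bef_iff hn hL]; exact h6 z hz hz'

theorem val_eqv {a c : Fin (n + 1)} {L L' : List (Fin (n + 1) × Fin (n + 1))} (h : Eqv L L')
    (hL : Val a c L) : Val a c L' := by
  rw [val_iff] at hL ⊢
  obtain ⟨hn, hV⟩ := hL
  refine ⟨nodup_eqv h hn, fun e he => ?_⟩
  obtain ⟨h1, h2, h3, h4, h5, h6⟩ := hV e ((mem_eqv h e).2 he)
  refine ⟨h1, h2, h3, fun z hz hz' => ?_, fun z hz hz' => ?_, fun z hz hz' => ?_⟩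
  · rw [← bef_eqv (x := e.2) (e := e) (f := (e.2, z)) h (Or.inl rfl) (Or.inr rfl),
      ← bef_eqv (x := e.1) (e := e) (f := (e.1, z)) h (Or.inl rfl) (Or.inl rfl)]
    exact h4 z hz hz'
  · rw [← bef_eqv (x := e.1) (e := e) (f := (z, e.1)) h (Or.inr rfl) (Or.inl rfl),
      ← bef_eqv (x := e.2) (e := e) (f := (z, e.2)) h (Or.inr rfl) (Or.inr rfl)]
    exact h5 z hz hz'
  · rw [← bef_eqv (x := e.1) (e := e) (f := (e.1, z)) h (Or.inl rfl) (Or.inl rfl),
      ← bef_eqv (x := e.2) (e := e) (f := (z, e.2)) h (Or.inr rfl) (Or.inr rfl)]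
    exact h6 z hz hz'

/-- `e` and `f` share no wire -/
def Dj (e f : Fin (n + 1) × Fin (n + 1)) : Prop :=
  e.1 ≠ f.1 ∧ e.1 ≠ f.2 ∧ e.2 ≠ f.1 ∧ e.2 ≠ f.2

theorem vstep_comm (q : ℤ) (X : Fin (n + 1) → ℤ) {e f : Fin (n + 1) × Fin (n + 1)}
    (h : Dj e f) : vstep q (vstep q X e) f = vstep q (vstep q X f) e := by
  obtain ⟨h1, h2, h3, h4⟩ := h
  funext z
  simp only [vstep]
  by_cases hz1 : z = e.1
  · subst hz1
    simp [h1, h2, h3, h4, h1.symm, h2.symm, h3.symm, h4.symm]; ring
  · by_cases hz2 : z = e.2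
    · subst hz2
      simp [h1, h2, h3, h4, h1.symm, h2.symm, h3.symm, h4.symm]; ring
    · by_cases hz3 : z = f.1
      · subst hz3
        simp [h1, h2, h3, h4, h1.symm, h2.symm, h3.symm, h4.symm]; ring
      · by_cases hz4 : z = f.2
        · subst hz4
          simp [h1, h2, h3, h4, h1.symm, h2.symm, h3.symm, h4.symm]; ring
        · simp [hz1, hz2, hz3, hz4]

theorem foldl_move (q : ℤ) (e : Fin (n + 1) × Fin (n + 1))
    (P S : List (Fin (n + 1) × Fin (n + 1))) (h : ∀ f ∈ P, Dj f e) (X : Fin (n + 1) → ℤ) :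
    (P ++ e :: S).foldl (vstep q) X = (e :: (P ++ S)).foldl (vstep q) X := by
  induction P generalizing X with
  | nil => rfl
  | cons f P ih =>
    rw [List.cons_append, List.foldl_cons, ih (fun g hg => h g (List.mem_cons_of_mem _ hg)),
      List.foldl_cons, List.foldl_cons, List.cons_append, List.foldl_cons,
      vstep_comm q X (h f (List.mem_cons_self ..))]

theorem foldl_eqv (q : ℤ) (L : List (Fin (n + 1) × Fin (n + 1))) :
    ∀ (L' : List (Fin (n + 1) × Fin (n + 1))) (X : Fin (n + 1) → ℤ), Eqv L L' →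
      L.foldl (vstep q) X = L'.foldl (vstep q) X := by
  induction L with
  | nil =>
    intro L' X h
    cases L' with
    | nil => rfl
    | cons e L' => exact absurd ((mem_eqv h e).2 (List.mem_cons_self ..)) List.not_mem_nil
  | cons e L ih =>
    intro L' X h
    have he : e ∈ L' := (mem_eqv h e).1 (List.mem_cons_self ..)
    obtain ⟨P, S, hL', heP⟩ := List.eq_append_cons_of_mem he
    have key : ∀ x, (e.1 = x ∨ e.2 = x) → loc x P = [] := by
      intro x hx
      have h1 := h x
      rw [hL'] at h1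
      simp only [loc, List.filter_append, List.filter_cons] at h1
      rw [if_pos (by simpa using hx), if_pos (by simpa using hx)] at h1
      have h2 : loc x P = P.filter (fun e => decide (e.1 = x ∨ e.2 = x)) := rfl
      rw [← h2] at h1
      rcases hP : loc x P with _ | ⟨f, T⟩
      · rfl
      · rw [hP, List.cons_append, List.cons.injEq] at h1
        exfalso
        apply heP
        have : f ∈ loc x P := by rw [hP]; exact List.mem_cons_self ..
        rw [h1.1]
        exact (mem_loc.1 this).1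
    have hdj : ∀ f ∈ P, Dj f e := by
      intro f hf
      have k1 : ¬ (f.1 = e.1 ∨ f.2 = e.1) := by
        intro hh
        have : f ∈ loc e.1 P := mem_loc.2 ⟨hf, hh⟩
        rw [key e.1 (Or.inl rfl)] at this
        exact List.not_mem_nil this
      have k2 : ¬ (f.1 = e.2 ∨ f.2 = e.2) := by
        intro hh
        have : f ∈ loc e.2 P := mem_loc.2 ⟨hf, hh⟩
        rw [key e.2 (Or.inr rfl)] at this
        exact List.not_mem_nil this
      push Not at k1 k2
      exact ⟨k1.1, k2.1, k1.2, k2.2⟩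
    rw [hL', foldl_move q e P S hdj, List.foldl_cons, List.foldl_cons]
    apply ih
    intro x
    have h1 := h x
    rw [hL'] at h1
    by_cases hx : e.1 = x ∨ e.2 = x
    · have hP := key x hx
      simp only [loc, List.filter_append, List.filter_cons] at h1 hP ⊢
      rw [if_pos (by simpa using hx), if_pos (by simpa using hx), hP] at h1
      rw [hP]
      simpa using h1
    · simp only [loc, List.filter_append, List.filter_cons] at h1 ⊢
      rw [if_neg (by simpa using hx), if_neg (by simpa using hx)] at h1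
      exact h1

theorem bring {a b c : Fin (n + 1)} {A B D E : List (Fin (n + 1) × Fin (n + 1))}
    (hB : ∀ f ∈ B, f.1 ≠ a ∧ f.2 ≠ a ∧ f.1 ≠ b ∧ f.2 ≠ b)
    (hD : ∀ f ∈ D, f.1 ≠ b ∧ f.2 ≠ b ∧ f.1 ≠ c ∧ f.2 ≠ c) :
    Eqv (A ++ (a, b) :: (B ++ (a, c) :: (D ++ (b, c) :: E)))
      ((A ++ B) ++ (a, b) :: (a, c) :: (b, c) :: (D ++ E)) := by
  have hBa : ∀ x, (x = a ∨ x = b) → B.filter (fun e => decide (e.1 = x ∨ e.2 = x)) = [] := by
    intro x hx
    rw [List.filter_eq_nil_iff]
    intro f hf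
    obtain ⟨h1, h2, h3, h4⟩ := hB f hf
    rcases hx with rfl | rfl <;> simp_all
  have hDa : ∀ x, (x = b ∨ x = c) → D.filter (fun e => decide (e.1 = x ∨ e.2 = x)) = [] := by
    intro x hx
    rw [List.filter_eq_nil_iff]
    intro f hf
    obtain ⟨h1, h2, h3, h4⟩ := hD f hf
    rcases hx with rfl | rfl <;> simp_all
  intro x
  simp only [loc, List.filter_append, List.filter_cons]
  by_cases hxa : x = a
  · subst hxa
    rw [hBa x (Or.inl rfl)]
    by_cases hxb : x = b
    · subst hxb
      rw [hDa x (Or.inl rfl)]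
      simp
    · by_cases hxc : x = c
      · subst hxc
        rw [hDa x (Or.inr rfl)]
        simp
      · have h1 : ¬ (b = x ∨ c = x) := by
          rintro (h | h)
          · exact hxb h.symm
          · exact hxc h.symm
        simp [h1]
  · by_cases hxb : x = b
    · subst hxb
      rw [hBa x (Or.inr rfl), hDa x (Or.inl rfl)]
      simp
    · by_cases hxc : x = c
      · subst hxc
        rw [hDa x (Or.inr rfl)]
        have h1 : ¬ (a = x ∨ b = x) := by
          rintro (h | h)
          · exact hxa h.symm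
          · exact hxb h.symm
        simp [h1]
      · have h1 : ¬ (a = x ∨ b = x) := by
          rintro (h | h)
          · exact hxa h.symm
          · exact hxb h.symm
        have h2 : ¬ (a = x ∨ c = x) := by
          rintro (h | h)
          · exact hxa h.symm
          · exact hxc h.symm
        have h3 : ¬ (b = x ∨ c = x) := by
          rintro (h | h)
          · exact hxb h.symm
          · exact hxc h.symm
        simp [h1, h2, h3]

end Pool.Agent.X211.BSE
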