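import Pool.Agent.X211.BSE.Ord

/-! Part `S_E2` of MP_4f027a_co. -/

set_option linter.unusedSimpArgs false

namespace Pool.Agent.X211.BSE

open Pool.Agent.X189.BS

variable {n : ℕ}

theorem bef_flip {x y z : Fin (n + 1) × Fin (n + 1)} {P S : List (Fin (n + 1) × Fin (n + 1))}
    {f e : Fin (n + 1) × Fin (n + 1)} (h1 : ¬ ((x = f ∨ x = e) ∧ (y = f ∨ y = e)))
    (h2 : ¬ ((x = f ∨ x = e) ∧ (z = f ∨ z = e))) (h3 : ¬ ((y = f ∨ y = e) ∧ (z = f ∨ z = e))) :
    [f, e].Sublist (P ++ x :: y :: z :: S) ↔ [f, e].Sublist (P ++ z :: y :: x :: S) := by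
  rw [bef_filter (L := P ++ x :: y :: z :: S) (p := fun g => decide (g = f ∨ g = e))
    (by simp) (by simp),
    bef_filter (L := P ++ z :: y :: x :: S) (p := fun g => decide (g = f ∨ g = e))
    (by simp) (by simp)]
  have : (P ++ x :: y :: z :: S).filter (fun g => decide (g = f ∨ g = e)) =
      (P ++ z :: y :: x :: S).filter (fun g => decide (g = f ∨ g = e)) := by
    simp only [List.filter_append, List.filter_cons]
    by_cases hx : x = f ∨ x = e
    · have hy : ¬ (y = f ∨ y = e) := fun hy => h1 ⟨hx, hy⟩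
      have hz : ¬ (z = f ∨ z = e) := fun hz => h2 ⟨hx, hz⟩
      simp [hx, hy, hz]
    · by_cases hy : y = f ∨ y = e
      · have hz : ¬ (z = f ∨ z = e) := fun hz => h3 ⟨hy, hz⟩
        simp [hx, hy, hz]
      · simp [hx, hy]
  rw [this]

theorem mem1 {L : List (Fin (n + 1) × Fin (n + 1))} {f e : Fin (n + 1) × Fin (n + 1)}
    (hs : [f, e].Sublist L) : f ∈ L ∧ e ∈ L := ⟨hs.subset (by simp), hs.subset (by simp)⟩

theorem bflip {L : List (Fin (n + 1) × Fin (n + 1))} (hL : L.Nodup)
    {f e : Fin (n + 1) × Fin (n + 1)} (hne : f ≠ e) (hf : f ∈ L) (he : e ∈ L) :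
    ([f, e].Sublist L ↔ ¬ [e, f].Sublist L) := by
  rw [bef_idx hL, bef_idx hL]
  have h1 : L.idxOf f ≠ L.idxOf e := fun hh => hne ((List.idxOf_inj hf).1 hh)
  constructor
  · rintro ⟨h2, _⟩ ⟨h3, _⟩
    omega
  · intro h2
    refine ⟨?_, he⟩
    by_contra h3
    exact h2 ⟨by omega, hf⟩

theorem birr {L : List (Fin (n + 1) × Fin (n + 1))} (hL : L.Nodup)
    {f : Fin (n + 1) × Fin (n + 1)} : ¬ [f, f].Sublist L := by
  rw [bef_idx hL]; exact fun h => absurd h.1 (lt_irrefl _)

theorem btr {L : List (Fin (n + 1) × Fin (n + 1))} (hL : L.Nodup)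
    {f g e : Fin (n + 1) × Fin (n + 1)} (h1 : [f, g].Sublist L) (h2 : [g, e].Sublist L) :
    [f, e].Sublist L := by
  rw [bef_idx hL] at *
  exact ⟨h1.1.trans h2.1, h2.2⟩

theorem basym {L : List (Fin (n + 1) × Fin (n + 1))} (hL : L.Nodup)
    {f g : Fin (n + 1) × Fin (n + 1)} (h1 : [f, g].Sublist L) (h2 : [g, f].Sublist L) :
    False := birr hL (btr hL h1 h2)

theorem flipV {a b c : Fin (n + 1)} {P S : List (Fin (n + 1) × Fin (n + 1))} (hab : a < b)
    (hbc : b < c) (h : V2 a c (P ++ (a, b) :: (a, c) :: (b, c) :: S)) :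
    V2 a c (P ++ (b, c) :: (a, c) :: (a, b) :: S) := by
  obtain ⟨hn, hV⟩ := h
  have hac := hab.trans hbc
  have hperm : (P ++ (a, b) :: (a, c) :: (b, c) :: S).Perm
      (P ++ (b, c) :: (a, c) :: (a, b) :: S) := by
    apply List.Perm.append_left
    have : ((a, b) :: (a, c) :: (b, c) :: S) = [(a, b), (a, c), (b, c)] ++ S := rfl
    have h2 : ((b, c) :: (a, c) :: (a, b) :: S) = [(b, c), (a, c), (a, b)] ++ S := rfl
    rw [this, h2]
    apply List.Perm.append_right
    exact (List.reverse_perm [(b, c), (a, c), (a, b)])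
  have hn' := hperm.nodup hn
  have hxy : ((a, b) : Fin (n + 1) × Fin (n + 1)) ≠ (a, c) := by
    intro hh; rw [Prod.mk.injEq] at hh; exact hbc.ne hh.2
  have hxz : ((a, b) : Fin (n + 1) × Fin (n + 1)) ≠ (b, c) := by
    intro hh; rw [Prod.mk.injEq] at hh; exact hab.ne hh.1
  have hyz : ((a, c) : Fin (n + 1) × Fin (n + 1)) ≠ (b, c) := by
    intro hh; rw [Prod.mk.injEq] at hh; exact hab.ne hh.1
  refine ⟨hn', fun e he => ?_⟩
  have he' := hperm.mem_iff.2 he
  obtain ⟨h1, h2, h3, h4, h5, h6⟩ := hV e he'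
  refine ⟨h1, h2, h3, ?_⟩
  -- positions
  have px : ∀ f, [f, (a, b)].Sublist (P ++ (a, b) :: (a, c) :: (b, c) :: S) ↔ f ∈ P :=
    fun f => bef_iff hn rfl
  have py : ∀ f, [f, (a, c)].Sublist (P ++ (a, b) :: (a, c) :: (b, c) :: S) ↔
      f ∈ P ++ [(a, b)] := fun f => bef_iff (S := (b, c) :: S) hn (by simp)
  have pz : ∀ f, [f, (b, c)].Sublist (P ++ (a, b) :: (a, c) :: (b, c) :: S) ↔
      f ∈ P ++ [(a, b), (a, c)] := fun f => bef_iff (S := S) hn (by simp)
  have px' : ∀ f, [f, (a, b)].Sublist (P ++ (b, c) :: (a, c) :: (a, b) :: S) ↔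
      f ∈ P ++ [(b, c), (a, c)] := fun f => bef_iff (S := S) hn' (by simp)
  have py' : ∀ f, [f, (a, c)].Sublist (P ++ (b, c) :: (a, c) :: (a, b) :: S) ↔
      f ∈ P ++ [(b, c)] := fun f => bef_iff (S := (a, b) :: S) hn' (by simp)
  have pz' : ∀ f, [f, (b, c)].Sublist (P ++ (b, c) :: (a, c) :: (a, b) :: S) ↔
      f ∈ P := fun f => bef_iff hn' rfl
  have nx : (a, b) ∉ P := fun hh => birr hn ((px _).2 hh)
  have ny : (a, c) ∉ P := fun hh => birr hn ((py _).2 (List.mem_append_left _ hh))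
  have nz : (b, c) ∉ P := fun hh => birr hn ((pz _).2 (List.mem_append_left _ hh))
  by_cases ex : e = (a, b)
  · subst ex
    simp only [px, px'] at *
    refine ⟨fun w hw hw' => ?_, fun w hw hw' => absurd hw' (not_lt.2 hw), fun w hw hw' => ?_⟩
    · have := h4 w hw hw'
      simp only [List.mem_append, List.mem_cons, List.not_mem_nil, or_false, Prod.mk.injEq]
      by_cases hwc : w = c
      · subst hwc; simp
      · simp [hwc, this]
    · have := h6 w hw hw'
      simp only [List.mem_append, List.mem_cons, List.not_mem_nil, or_false, Prod.mk.injEq]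
      have e1 : a ≠ b := hab.ne
      have e2 : b ≠ c := hbc.ne
      have e3 : w ≠ c := (hw'.trans hbc).ne
      simp [e1, e2, e3, this]
  · by_cases ey : e = (a, c)
    · subst ey
      simp only [py, py'] at *
      refine ⟨fun w hw hw' => absurd hw (not_lt.2 hw'), fun w hw hw' => absurd hw' (not_lt.2 hw),
        fun w hw hw' => ?_⟩
      have := h6 w hw hw'
      simp only [List.mem_append, List.mem_cons, List.not_mem_nil, or_false, Prod.mk.injEq]
        at this ⊢
      have e1 : a ≠ b := hab.ne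
      have e4 : w ≠ a := hw.ne'
      by_cases hwb : w = b
      · subst hwb
        simp [nx, e1]
      · simp [hwb, e1, e4] at this ⊢
        exact this
    · by_cases ez : e = (b, c)
      · subst ez
        simp only [pz, pz'] at *
        refine ⟨fun w hw hw' => absurd hw (not_lt.2 hw'), fun w hw hw' => ?_,
          fun w hw hw' => ?_⟩
        · have := h5 w hw hw'
          simp only [List.mem_append, List.mem_cons, List.not_mem_nil, or_false, Prod.mk.injEq]
            at this
          by_cases hwa : w = a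
          · subst hwa
            simp [nx, ny]
          · have e5 : c ≠ b := hbc.ne'
            simp [hwa, e5] at this
            exact this
        · have := h6 w hw hw'
          simp only [List.mem_append, List.mem_cons, List.not_mem_nil, or_false, Prod.mk.injEq]
            at this
          have e1 : b ≠ a := hab.ne'
          have e5 : c ≠ b := hbc.ne'
          have e6 : w ≠ a := (hab.trans hw).ne'
          simp [e1, e5, e6] at this
          exact this
      · have key : ∀ f, [f, e].Sublist (P ++ (a, b) :: (a, c) :: (b, c) :: S) ↔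
            [f, e].Sublist (P ++ (b, c) :: (a, c) :: (a, b) :: S) := by
          intro f
          apply bef_flip
          · rintro ⟨h1 | h1, h2 | h2⟩
            · exact hxy (h1.trans h2.symm)
            · exact ey h2.symm
            · exact ex h1.symm
            · exact ex h1.symm
          · rintro ⟨h1 | h1, h2 | h2⟩
            · exact hxz (h1.trans h2.symm)
            · exact ez h2.symm
            · exact ex h1.symm
            · exact ex h1.symm
          · rintro ⟨h1 | h1, h2 | h2⟩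
            · exact hyz (h1.trans h2.symm)
            · exact ez h2.symm
            · exact ey h1.symm
            · exact ey h1.symm
        simp only [key] at h4 h5 h6
        exact ⟨h4, h5, h6⟩

theorem hypFlip {a b c : Fin (n + 1)} {L P S : List (Fin (n + 1) × Fin (n + 1))} (hab : a < b)
    (hbc : b < c) (h : Hyp a c L (P ++ (a, b) :: (a, c) :: (b, c) :: S)) :
    Hyp a c L (P ++ (b, c) :: (a, c) :: (a, b) :: S) := by
  refine ⟨h.v, flipV hab hbc h.v', fun e => ?_, ?_, ?_⟩
  · rw [h.m e]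
    simp only [List.mem_append, List.mem_cons]
    tauto
  · intro f e x hf he hfa hea
    rw [h.s1 f e x hf he hfa hea]
    apply bef_flip
    · rintro ⟨h1 | h1, _⟩
      · exact hfa (by rw [← h1])
      · exact hea (by rw [← h1])
    · rintro ⟨h1 | h1, _⟩
      · exact hfa (by rw [← h1])
      · exact hea (by rw [← h1])
    · rintro ⟨h1 | h1, _⟩
      · exact hfa (by rw [← h1])
      · exact hea (by rw [← h1])
  · intro f e x hf he hfa hea
    rw [h.s2 f e x hf he hfa hea]
    apply bef_flip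
    · rintro ⟨_, h1 | h1⟩
      · exact hfa (by rw [← h1])
      · exact hea (by rw [← h1])
    · rintro ⟨_, h1 | h1⟩
      · exact hfa (by rw [← h1])
      · exact hea (by rw [← h1])
    · rintro ⟨h1 | h1, _⟩
      · exact hfa (by rw [← h1])
      · exact hea (by rw [← h1])

theorem split3 {L : List (Fin (n + 1) × Fin (n + 1))} (hn : L.Nodup)
    {x y z : Fin (n + 1) × Fin (n + 1)} (h1 : [x, y].Sublist L) (h2 : [y, z].Sublist L) :
    ∃ A B D E, L = A ++ x :: (B ++ y :: (D ++ z :: E)) ∧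
      (∀ f ∈ B, [x, f].Sublist L ∧ [f, y].Sublist L) ∧
      (∀ f ∈ D, [y, f].Sublist L ∧ [f, z].Sublist L) := by
  obtain ⟨Q, E, hQ⟩ := List.append_of_mem (mem1 h2).2
  have hy : y ∈ Q := (bef_iff hn hQ).1 h2
  obtain ⟨R, D, hR⟩ := List.append_of_mem hy
  have hL2 : L = R ++ y :: (D ++ z :: E) := by rw [hQ, hR]; simp
  have hx : x ∈ R := (bef_iff hn hL2).1 h1
  obtain ⟨A, B, hA⟩ := List.append_of_mem hx
  have hL3 : L = A ++ x :: (B ++ y :: (D ++ z :: E)) := by rw [hL2, hA]; simp
  refine ⟨A, B, D, E, hL3, ?_, ?_⟩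
  · intro f hf
    constructor
    · obtain ⟨B1, B2, hB⟩ := List.append_of_mem hf
      have : L = (A ++ x :: B1) ++ f :: (B2 ++ y :: (D ++ z :: E)) := by
        rw [hL3, hB]; simp
      rw [bef_iff hn this]
      simp
    · rw [bef_iff hn hL2, hA]
      simp [hf]
  · intro f hf
    constructor
    · obtain ⟨B1, B2, hB⟩ := List.append_of_mem hf
      have : L = (R ++ y :: B1) ++ f :: (B2 ++ z :: E) := by
        rw [hL2, hB]; simp
      rw [bef_iff hn this]
      simp
    · rw [bef_iff hn hQ, hR]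
      simp [hf]

theorem step {a c : Fin (n + 1)} {L L' : List (Fin (n + 1) × Fin (n + 1))} (h : Hyp a c L L')
    (b : Fin (n + 1)) (hb' : [(a, b), (a, c)].Sublist L') (hb : ¬ [(a, b), (a, c)].Sublist L)
    (hmax : ∀ t, [(a, t), (a, c)].Sublist L' → ¬ [(a, t), (a, c)].Sublist L →
      ¬ [(a, b), (a, t)].Sublist L') :
    a < b ∧ b < c ∧ ∃ P S, Eqv L' (P ++ (a, b) :: (a, c) :: (b, c) :: S) := by
  have hn := h.v.1
  have hn' := h.v'.1
  have rng : ∀ {e}, e ∈ L' → a ≤ e.1 ∧ e.1 < e.2 ∧ e.2 ≤ c :=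
    fun he => ⟨(h.v'.2 _ he).1, (h.v'.2 _ he).2.1, (h.v'.2 _ he).2.2.1⟩
  have hx' : (a, b) ∈ L' := (mem1 hb').1
  have hy' : (a, c) ∈ L' := (mem1 hb').2
  have hx : (a, b) ∈ L := (h.m _).2 hx'
  have hy : (a, c) ∈ L := (h.m _).2 hy'
  have hab : a < b := (rng hx').2.1
  have hbc : b < c := by
    refine lt_of_le_of_ne (rng hx').2.2 ?_
    rintro rfl
    exact birr hn' hb'
  have A2 : ∀ (t : Fin (n + 1)), a < t → t < c →
      ([(a, t), (a, c)].Sublist L ↔ ¬ [(t, c), (a, c)].Sublist L) :=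
    fun t h1 h2 => (h.v.2 (a, c) hy).2.2.2.2.2 t h1 h2
  have A2' : ∀ (t : Fin (n + 1)), a < t → t < c →
      ([(a, t), (a, c)].Sublist L' ↔ ¬ [(t, c), (a, c)].Sublist L') :=
    fun t h1 h2 => (h.v'.2 (a, c) hy').2.2.2.2.2 t h1 h2
  have hzy : [(b, c), (a, c)].Sublist L := by
    by_contra hh
    exact hb ((A2 b hab hbc).2 hh)
  have hz : (b, c) ∈ L := (mem1 hzy).1
  have hz' : (b, c) ∈ L' := (h.m _).1 hz
  have hxy : ((a, b) : Fin (n + 1) × Fin (n + 1)) ≠ (a, c) := by
    intro hh; rw [Prod.mk.injEq] at hh; exact hbc.ne hh.2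
  have hyz : ((a, c) : Fin (n + 1) × Fin (n + 1)) ≠ (b, c) := by
    intro hh; rw [Prod.mk.injEq] at hh; exact hab.ne hh.1
  have hyx : [(a, c), (a, b)].Sublist L := (bflip hn hxy.symm hy hx).2 hb
  have hyz' : [(a, c), (b, c)].Sublist L' :=
    (bflip hn' hyz hy' hz').2 ((A2' b hab hbc).1 hb')
  have hzx : [(b, c), (a, b)].Sublist L := btr hn hzy hyx
  have hxz' : [(a, b), (b, c)].Sublist L' := btr hn' hb' hyz'
  have bfree : ∀ f, (f.1 = b ∨ f.2 = b) → [(a, b), f].Sublist L' → [f, (b, c)].Sublist L' →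
      False := by
    intro f hf h1 h2
    have hfm := (mem1 h1).2
    have rf := rng hfm
    have hfa : f.1 ≠ a := by
      intro hfa
      have : f = (a, b) := by
        rcases hf with hf | hf
        · exact absurd (hfa.symm.trans hf) hab.ne
        · exact Prod.ext hfa hf
      rw [this] at h1
      exact birr hn' h1
    have hfc : f.2 ≠ c := by
      intro hfc
      have : f = (b, c) := by
        rcases hf with hf | hf
        · exact Prod.ext hf hfc
        · exact absurd (hf.symm.trans hfc) hbc.ne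
      rw [this] at h2
      exact birr hn' h2
    have k1 := (h.s1 f (b, c) b hf (Or.inl rfl) hfa hab.ne').2 h2
    have k2 := (h.s2 (a, b) f b (Or.inr rfl) hf hbc.ne hfc).2 h1
    exact basym hn (btr hn k2 k1) hzx
  have afree : ∀ f, (f.1 = a ∨ f.2 = a) → [(a, b), f].Sublist L' → [f, (a, c)].Sublist L' →
      False := by
    intro f hf h1 h2
    have hfm := (mem1 h1).2
    have rf := rng hfm
    have hfa : f.1 = a := by
      rcases hf with hf | hf
      · exact hf
      · exact absurd hf (lt_of_le_of_lt rf.1 rf.2.1).ne'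
    obtain ⟨f1, t⟩ := f
    simp only at hfa
    subst hfa
    by_cases hD : [(f1, t), (f1, c)].Sublist L
    · have htc : t ≠ c := by
        rintro rfl
        exact birr hn hD
      have k1 := btr hn hD hyx
      have k2 := (h.s2 (f1, t) (f1, b) f1 (Or.inl rfl) (Or.inl rfl) htc hbc.ne).1 k1
      exact basym hn' k2 h1
    · exact hmax t h2 hD h1
  have cfree : ∀ f, (f.1 = c ∨ f.2 = c) → [(a, c), f].Sublist L' → [f, (b, c)].Sublist L' →
      False := by
    intro f hf h1 h2
    have hfm := (mem1 h1).2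
    have rf := rng hfm
    have hfc : f.2 = c := by
      rcases hf with hf | hf
      · exact absurd hf (lt_of_lt_of_le rf.2.1 rf.2.2).ne
      · exact hf
    obtain ⟨t, f2⟩ := f
    simp only at hfc rf
    subst hfc
    have hta : t ≠ a := by
      rintro rfl
      exact birr hn' h1
    have htb : t ≠ b := by
      rintro rfl
      exact birr hn' h2
    have hat : a < t := lt_of_le_of_ne rf.1 hta.symm
    have htc : t < f2 := rf.2.1
    have k1 : [(a, t), (a, f2)].Sublist L' := by
      rw [A2' t hat htc]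
      intro hh
      exact basym hn' hh h1
    by_cases hD : [(a, t), (a, f2)].Sublist L
    · have k2 := (A2 t hat htc).1 hD
      have hne : ((a, f2) : Fin (n + 1) × Fin (n + 1)) ≠ (t, f2) := by
        intro hh; rw [Prod.mk.injEq] at hh; exact hta hh.1.symm
      have k3 := (bflip hn hne hy ((h.m _).2 hfm)).2 k2
      have k4 := btr hn hzy k3
      have k5 := (h.s1 (b, f2) (t, f2) f2 (Or.inr rfl) (Or.inr rfl) hab.ne' hta).1 k4
      exact basym hn' k5 h2
    · have k2 := hmax t k1 hD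
      have hne : ((a, t) : Fin (n + 1) × Fin (n + 1)) ≠ (a, b) := by
        intro hh; rw [Prod.mk.injEq] at hh; exact htb hh.2
      have k3 := (bflip hn' hne (mem1 k1).1 hx').2 k2
      rcases lt_or_gt_of_ne htb with htb | hbt
      · -- t < b
        have k4 := ((h.v'.2 (a, b) hx').2.2.2.2.2 t hat htb).1 k3
        have k5 := ((h.v'.2 (b, f2) hz').2.2.2.2.1 t rf.1 htb).2 h2
        have hne2 : ((a, b) : Fin (n + 1) × Fin (n + 1)) ≠ (t, b) := by
          intro hh; rw [Prod.mk.injEq] at hh; exact hta hh.1.symm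
        have k6 := (bflip hn' hne2 hx' (mem1 k5).1).2 k4
        exact bfree (t, b) (Or.inr rfl) k6 k5
      · have k4 := ((h.v'.2 (a, b) hx').2.2.2.1 t hbt htc.le).2 k3
        have k5 := ((h.v'.2 (b, f2) hz').2.2.2.2.2 t hbt htc).1 (btr hn' k4 hxz')
        exact k5 h2
  refine ⟨hab, hbc, ?_⟩
  obtain ⟨A, B, D, E, hL, hB, hD⟩ := split3 hn' hb' hyz'
  refine ⟨A ++ B, D ++ E, ?_⟩
  have hbr := bring (A := A) (B := B) (D := D) (E := E) (a := a) (b := b) (c := c) ?_ ?_
  · rw [← hL] at hbr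
    exact hbr
  · intro f hf
    obtain ⟨h1, h2⟩ := hB f hf
    refine ⟨fun hh => afree f (Or.inl hh) h1 h2, fun hh => afree f (Or.inr hh) h1 h2,
      fun hh => bfree f (Or.inl hh) h1 (btr hn' h2 hyz'),
      fun hh => bfree f (Or.inr hh) h1 (btr hn' h2 hyz')⟩
  · intro f hf
    obtain ⟨h1, h2⟩ := hD f hf
    refine ⟨fun hh => bfree f (Or.inl hh) (btr hn' hb' h1) h2,
      fun hh => bfree f (Or.inr hh) (btr hn' hb' h1) h2,
      fun hh => cfree f (Or.inl hh) h1 h2, fun hh => cfree f (Or.inr hh) h1 h2⟩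

open Classical in
/-- the wires crossed by `a` before `c` -/
noncomputable def Ds (a c : Fin (n + 1)) (L : List (Fin (n + 1) × Fin (n + 1))) :
    Finset (Fin (n + 1)) := Finset.univ.filter fun t => [(a, t), (a, c)].Sublist L

theorem mem_Ds {a c : Fin (n + 1)} {L : List (Fin (n + 1) × Fin (n + 1))} {t : Fin (n + 1)} :
    t ∈ Ds a c L ↔ [(a, t), (a, c)].Sublist L := by simp [Ds]

theorem main_ineq (hE1 : S_E1) {q : ℤ} (hq : 0 < q) {a c : Fin (n + 1)}
    {L : List (Fin (n + 1) × Fin (n + 1))} :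
    ∀ (k : ℕ) (L' : List (Fin (n + 1) × Fin (n + 1))), Hyp a c L L' → Ds a c L ⊆ Ds a c L' →
      (Ds a c L' \ Ds a c L).card = k →
      (k = 0 → Eqv L L') ∧
      (L'.foldl (vstep q) (Pi.single a 1) c ≤ L.foldl (vstep q) (Pi.single a 1) c) ∧
      (0 < k → L'.foldl (vstep q) (Pi.single a 1) c < L.foldl (vstep q) (Pi.single a 1) c) := by
  intro k
  induction k with
  | zero =>
    intro L' h hs hk
    rw [Finset.card_eq_zero, Finset.sdiff_eq_empty_iff_subset] at hk
    have hEq : Eqv L L' := by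
      refine eqv_of_D h fun t => ?_
      rw [← mem_Ds, ← mem_Ds]
      exact ⟨fun hh => hs hh, fun hh => hk hh⟩
    refine ⟨fun _ => hEq, ?_, fun hh => absurd hh (lt_irrefl _)⟩
    rw [foldl_eqv q L L' _ hEq]
  | succ k ih =>
    intro L' h hs hk
    have hne : (Ds a c L' \ Ds a c L).Nonempty := by
      rw [← Finset.card_pos]; omega
    obtain ⟨b, hbm, hbmax⟩ := Finset.exists_max_image _ (fun t => L'.idxOf (a, t)) hne
    rw [Finset.mem_sdiff, mem_Ds, mem_Ds] at hbm
    obtain ⟨hab, hbc, P, S, hPS⟩ := step h b hbm.1 hbm.2 (by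
      intro t h1 h2 h3
      have := hbmax t (by rw [Finset.mem_sdiff, mem_Ds, mem_Ds]; exact ⟨h1, h2⟩)
      rw [bef_idx h.v'.1] at h3
      omega)
    have hM := h.trans hPS
    have hM' := hypFlip hab hbc hM
    have hval : Val a c (P ++ (a, b) :: (a, c) :: (b, c) :: S) := val_iff.2 hM.v'
    have hlt := hE1 n q a b c P S hq hab hbc hval
    have hDs : Ds a c (P ++ (b, c) :: (a, c) :: (a, b) :: S) = (Ds a c L').erase b := by
      ext t
      rw [Finset.mem_erase, mem_Ds, mem_Ds, bef_eqv (x := a) hPS (Or.inl rfl) (Or.inl rfl),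
        bef_iff hM.v'.1 (P := P ++ [(a, b)]) (S := (b, c) :: S) (by simp),
        bef_iff hM'.v'.1 (P := P ++ [(b, c)]) (S := (a, b) :: S) (by simp)]
      simp only [List.mem_append, List.mem_cons, List.not_mem_nil, or_false, Prod.mk.injEq]
      have e1 : a ≠ b := hab.ne
      by_cases htb : t = b
      · subst htb
        have : (a, t) ∉ P := fun hh => birr hM.v'.1 ((bef_iff hM.v'.1 rfl).2 hh)
        simp [this, e1]
      · simp [htb, e1]
    obtain ⟨_, h2, _⟩ := ih _ hM' (by
      rw [hDs]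
      intro t ht
      rw [Finset.mem_erase]
      refine ⟨?_, hs ht⟩
      rintro rfl
      exact hbm.2 (mem_Ds.1 ht)) (by
      rw [hDs, Finset.erase_sdiff_comm, Finset.card_erase_of_mem, hk]
      · rfl
      · rw [Finset.mem_sdiff, mem_Ds, mem_Ds]; exact hbm)
    have hF := congrFun (foldl_eqv q L' _ (Pi.single a 1) hPS) c
    refine ⟨fun hh => absurd hh (Nat.succ_ne_zero _), ?_, fun _ => ?_⟩
    · rw [hF]; exact (hlt.trans_le h2).le
    · rw [hF]; exact hlt.trans_le h2

theorem comparable {a c : Fin (n + 1)} {L L' : List (Fin (n + 1) × Fin (n + 1))}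
    (h : Hyp a c L L') : Ds a c L ⊆ Ds a c L' ∨ Ds a c L' ⊆ Ds a c L := by
  have hn := h.v.1
  have hn' := h.v'.1
  by_contra hcon
  push Not at hcon
  obtain ⟨h1, h2⟩ := hcon
  rw [Finset.not_subset] at h1 h2
  obtain ⟨s, hs, hs'⟩ := h1
  obtain ⟨t, ht', ht⟩ := h2
  rw [mem_Ds] at hs hs' ht ht'
  have hst : s ≠ t := by rintro rfl; exact ht hs
  have hsc : s ≠ c := by rintro rfl; exact birr hn hs
  have htc : t ≠ c := by rintro rfl; exact birr hn' ht'
  have n1 : ((a, c) : Fin (n + 1) × Fin (n + 1)) ≠ (a, t) := by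
    intro hh; rw [Prod.mk.injEq] at hh; exact htc hh.2.symm
  have n2 : ((a, c) : Fin (n + 1) × Fin (n + 1)) ≠ (a, s) := by
    intro hh; rw [Prod.mk.injEq] at hh; exact hsc hh.2.symm
  have k1 := (bflip hn n1 (mem1 hs).2 ((h.m _).2 (mem1 ht').1)).2 ht
  have k2 := (bflip hn' n2 (mem1 ht').2 ((h.m _).1 (mem1 hs).1)).2 hs'
  have k3 := btr hn hs k1
  have k4 := btr hn' ht' k2
  exact basym hn' ((h.s2 (a, s) (a, t) a (Or.inl rfl) (Or.inl rfl) hsc htc).1 k3) k4

theorem t_E2 (hE1 : S_E1) : S_E2 := by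
  intro n q a c L L' hq hac hv hv' hm h1 h2 hF
  have h := hyp_of hv hv' hm h1 h2
  rcases comparable h with hs | hs
  · obtain ⟨k1, k2, k3⟩ := main_ineq hE1 hq _ L' h hs rfl
    apply k1
    by_contra hk
    exact absurd hF (k3 (Nat.pos_of_ne_zero hk)).ne'
  · obtain ⟨k1, k2, k3⟩ := main_ineq hE1 hq _ L h.symm hs rfl
    apply eqv_symm
    apply k1
    by_contra hk
    exact absurd hF (k3 (Nat.pos_of_ne_zero hk)).ne

end Pool.Agent.X211.BSE
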