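import Pool.Agent.X211.BSE.Comm

/-! Order lemmas for part `S_E2` of MP_4f027a_co. -/

set_option linter.unusedSimpArgs false

namespace Pool.Agent.X211.BSE

open Pool.Agent.X189.BS

variable {n : ℕ}

theorem bef_idx {L : List (Fin (n + 1) × Fin (n + 1))} (hL : L.Nodup)
    {e f : Fin (n + 1) × Fin (n + 1)} :
    [f, e].Sublist L ↔ L.idxOf f < L.idxOf e ∧ e ∈ L := by
  induction L with
  | nil => simp
  | cons g L ih =>
    have hg := (List.nodup_cons.1 hL).1
    have ih := ih (List.nodup_cons.1 hL).2
    rw [List.sublist_cons_iff, ih]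
    have hr : (∃ r, [f, e] = g :: r ∧ r.Sublist L) ↔ f = g ∧ e ∈ L := by
      constructor
      · rintro ⟨r, h1, h2⟩
        rw [List.cons.injEq] at h1
        obtain ⟨rfl, rfl⟩ := h1
        exact ⟨rfl, List.singleton_sublist.1 h2⟩
      · rintro ⟨rfl, h⟩
        exact ⟨[e], rfl, List.singleton_sublist.2 h⟩
    rw [hr]
    by_cases hf : f = g
    · subst hf
      rw [List.idxOf_cons_self]
      by_cases he : e = f
      · subst he
        rw [List.idxOf_cons_self]
        constructor
        · rintro (⟨_, h⟩ | ⟨_, h⟩) <;> exact absurd h hg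
        · rintro ⟨h, _⟩
          exact absurd h (lt_irrefl _)
      · rw [List.idxOf_cons_ne _ (Ne.symm he)]
        constructor
        · rintro (⟨_, h⟩ | ⟨_, h⟩) <;> exact ⟨Nat.succ_pos _, List.mem_cons_of_mem _ h⟩
        · rintro ⟨_, h⟩
          right
          refine ⟨rfl, ?_⟩
          rcases List.mem_cons.1 h with h | h
          · exact absurd h he
          · exact h
    · rw [List.idxOf_cons_ne _ (Ne.symm hf)]
      by_cases he : e = g
      · subst he
        rw [List.idxOf_cons_self]
        constructor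
        · rintro (⟨_, h⟩ | ⟨_, h⟩) <;> exact absurd h hg
        · rintro ⟨h, _⟩
          exact absurd h (Nat.not_lt_zero _)
      · rw [List.idxOf_cons_ne _ (Ne.symm he)]
        constructor
        · rintro (⟨h1, h⟩ | ⟨h1, h⟩)
          · exact ⟨by omega, List.mem_cons_of_mem _ h⟩
          · exact absurd h1 hf
        · rintro ⟨h1, h⟩
          left
          refine ⟨by omega, ?_⟩
          rcases List.mem_cons.1 h with h | h
          · exact absurd h he
          · exact h

theorem bef_filter {L : List (Fin (n + 1) × Fin (n + 1))}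
    {p : Fin (n + 1) × Fin (n + 1) → Bool}
    {e f : Fin (n + 1) × Fin (n + 1)} (hf : p f = true) (he : p e = true) :
    [f, e].Sublist L ↔ [f, e].Sublist (L.filter p) := by
  constructor
  · intro h
    have h2 := h.filter p
    have h3 : [f, e].filter p = [f, e] := by
      rw [List.filter_eq_self]
      intro g hg
      simp only [List.mem_cons, List.not_mem_nil, or_false] at hg
      rcases hg with rfl | rfl
      · exact hf
      · exact he
    rw [h3] at h2
    exact h2
  · intro h
    exact h.trans List.filter_sublist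

theorem eqv_of_bef {L L' : List (Fin (n + 1) × Fin (n + 1))} (hL : L.Nodup) (hL' : L'.Nodup)
    (hm : ∀ e, e ∈ L ↔ e ∈ L')
    (h : ∀ x f e, (f.1 = x ∨ f.2 = x) → (e.1 = x ∨ e.2 = x) → [f, e].Sublist L' →
      [f, e].Sublist L) : Eqv L L' := by
  intro x
  refine List.Perm.eq_of_pairwise (le := fun f e => [f, e].Sublist L) ?_ ?_ ?_ ?_
  · intro f e _ _ h1 h2
    rw [bef_idx hL] at h1 h2
    omega
  · rw [List.pairwise_iff_forall_sublist]
    intro f e hfe
    exact hfe.trans List.filter_sublist
  · rw [List.pairwise_iff_forall_sublist]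
    intro f e hfe
    have hf : f ∈ loc x L' := hfe.subset (by simp)
    have he : e ∈ loc x L' := hfe.subset (by simp)
    exact h x f e (mem_loc.1 hf).2 (mem_loc.1 he).2 (hfe.trans List.filter_sublist)
  · unfold loc
    rw [List.perm_ext_iff_of_nodup (hL.filter _) (hL'.filter _)]
    intro e
    have h1 := hm e
    show e ∈ loc x L ↔ e ∈ loc x L'
    rw [mem_loc, mem_loc, h1]

/-- The standing hypotheses. -/
structure Hyp (a c : Fin (n + 1)) (L L' : List (Fin (n + 1) × Fin (n + 1))) : Prop where
  v : V2 a c L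
  v' : V2 a c L'
  m : ∀ e, e ∈ L ↔ e ∈ L'
  s1 : ∀ f e x, (f.1 = x ∨ f.2 = x) → (e.1 = x ∨ e.2 = x) → f.1 ≠ a → e.1 ≠ a →
    ([f, e].Sublist L ↔ [f, e].Sublist L')
  s2 : ∀ f e x, (f.1 = x ∨ f.2 = x) → (e.1 = x ∨ e.2 = x) → f.2 ≠ c → e.2 ≠ c →
    ([f, e].Sublist L ↔ [f, e].Sublist L')

theorem Hyp.symm {a c : Fin (n + 1)} {L L' : List (Fin (n + 1) × Fin (n + 1))}
    (h : Hyp a c L L') : Hyp a c L' L :=
  ⟨h.v', h.v, fun e => (h.m e).symm, fun f e x h1 h2 h3 h4 => (h.s1 f e x h1 h2 h3 h4).symm,
    fun f e x h1 h2 h3 h4 => (h.s2 f e x h1 h2 h3 h4).symm⟩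

theorem hyp_of {a c : Fin (n + 1)} {L L' : List (Fin (n + 1) × Fin (n + 1))}
    (hv : Val a c L) (hv' : Val a c L') (hm : ∀ e, e ∈ L ↔ e ∈ L')
    (h1 : Eqv (L.filter fun e => e.1 ≠ a) (L'.filter fun e => e.1 ≠ a))
    (h2 : Eqv (L.filter fun e => e.2 ≠ c) (L'.filter fun e => e.2 ≠ c)) : Hyp a c L L' := by
  refine ⟨val_iff.1 hv, val_iff.1 hv', hm, ?_, ?_⟩
  · intro f e x hf he hfa hea
    rw [bef_filter (L := L) (p := fun e => decide (e.1 ≠ a)) (by simpa using hfa)
      (by simpa using hea), bef_filter (L := L') (p := fun e => decide (e.1 ≠ a))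
      (by simpa using hfa) (by simpa using hea)]
    exact bef_eqv h1 hf he
  · intro f e x hf he hfa hea
    rw [bef_filter (L := L) (p := fun e => decide (e.2 ≠ c)) (by simpa using hfa)
      (by simpa using hea), bef_filter (L := L') (p := fun e => decide (e.2 ≠ c))
      (by simpa using hfa) (by simpa using hea)]
    exact bef_eqv h2 hf he

/-- the standing hypotheses are stable under `Eqv` in the second list -/
theorem Hyp.trans {a c : Fin (n + 1)} {L L' L'' : List (Fin (n + 1) × Fin (n + 1))}
    (h : Hyp a c L L') (h' : Eqv L' L'') : Hyp a c L L'' := by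
  refine ⟨h.v, val_iff.1 (val_eqv h' (val_iff.2 h.v')), fun e => (h.m e).trans (mem_eqv h' e),
    ?_, ?_⟩
  · intro f e x hf he hfa hea
    rw [h.s1 f e x hf he hfa hea, bef_eqv h' hf he]
  · intro f e x hf he hfa hea
    rw [h.s2 f e x hf he hfa hea, bef_eqv h' hf he]

/-- equal sets `D` give equivalence -/
theorem eqv_of_D {a c : Fin (n + 1)} {L L' : List (Fin (n + 1) × Fin (n + 1))}
    (h : Hyp a c L L')
    (hD : ∀ t, [(a, t), (a, c)].Sublist L ↔ [(a, t), (a, c)].Sublist L') : Eqv L L' := by
  have hn := h.v.1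
  have hn' := h.v'.1
  -- order of (a,t) and (a,c), the other direction
  have mem1 : ∀ {L : List (Fin (n + 1) × Fin (n + 1))} {f e : Fin (n + 1) × Fin (n + 1)},
      [f, e].Sublist L → f ∈ L ∧ e ∈ L := fun hs => ⟨hs.subset (by simp), hs.subset (by simp)⟩
  have flip : ∀ {L : List (Fin (n + 1) × Fin (n + 1))} (_ : L.Nodup)
      {f e : Fin (n + 1) × Fin (n + 1)}, f ≠ e → f ∈ L → e ∈ L →
      ([f, e].Sublist L ↔ ¬ [e, f].Sublist L) := by
    intro L hL f e hne hf he
    rw [bef_idx hL, bef_idx hL]
    have h1 : L.idxOf f ≠ L.idxOf e := fun hh => hne ((List.idxOf_inj hf).1 hh)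
    constructor
    · rintro ⟨h2, _⟩ ⟨h3, _⟩
      omega
    · intro h2
      refine ⟨?_, he⟩
      by_contra h3
      exact h2 ⟨by omega, hf⟩
  have A1 : ∀ t, [(a, c), (a, t)].Sublist L' → [(a, c), (a, t)].Sublist L := by
    intro t ht
    have hm := mem1 ht
    by_cases htc : t = c
    · subst htc
      rw [bef_idx hn'] at ht
      exact absurd ht.1 (lt_irrefl _)
    · have hne : ((a, c) : Fin (n + 1) × Fin (n + 1)) ≠ (a, t) := by
        intro hh
        rw [Prod.mk.injEq] at hh
        exact htc hh.2.symm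
      rw [flip hn hne ((h.m _).2 hm.1) ((h.m _).2 hm.2), hD]
      rwa [flip hn' hne hm.1 hm.2] at ht
  -- order of (t,c) and (a,c)
  have A2 : ∀ {L : List (Fin (n + 1) × Fin (n + 1))} (_ : V2 a c L) (t : Fin (n + 1)), a < t →
      t < c → (a, c) ∈ L → ([(t, c), (a, c)].Sublist L ↔ ¬ [(a, t), (a, c)].Sublist L) := by
    intro L hv t h1 h2 hy
    have := (hv.2 (a, c) hy).2.2.2.2.2 t h1 h2
    simp only at this
    tauto
  have rng : ∀ {L : List (Fin (n + 1) × Fin (n + 1))} (_ : V2 a c L) {e}, e ∈ L → a ≤ e.1 ∧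
      e.1 < e.2 ∧ e.2 ≤ c := fun hv e he => ⟨(hv.2 e he).1, (hv.2 e he).2.1, (hv.2 e he).2.2.1⟩
  refine eqv_of_bef hn hn' h.m ?_
  intro x f e hf he hfe
  obtain ⟨hfm, hem⟩ := mem1 hfe
  have hfe_ne : f ≠ e := by
    rintro rfl
    rw [bef_idx hn'] at hfe
    exact absurd hfe.1 (lt_irrefl _)
  obtain ⟨f1, f2⟩ := f
  obtain ⟨e1, e2⟩ := e
  have rf := rng h.v' hfm
  have re := rng h.v' hem
  simp only at rf re hf he
  by_cases hfa : f1 = a
  · subst hfa
    by_cases hec : e2 = c
    · subst hec
      by_cases hea : e1 = f1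
      · subst hea
        exact (hD f2).2 hfe
      · by_cases hfc : f2 = e2
        · subst hfc
          -- f = y, e = (e1, c)
          have h1 : f1 < e1 := lt_of_le_of_ne re.1 (Ne.symm hea)
          have hne : ((f1, f2) : Fin (n + 1) × Fin (n + 1)) ≠ (e1, f2) := hfe_ne
          rw [flip hn hne ((h.m _).2 hfm) ((h.m _).2 hem), A2 h.v e1 h1 re.2.1 ((h.m _).2 hfm),
            hD, ← A2 h.v' e1 h1 re.2.1 hfm, ← flip hn' hne hfm hem]
          exact hfe
        · -- f = (a, t), e = (t, c)
          have ht : f2 = e1 := by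
            rcases hf with hf | hf <;> rcases he with he | he
            · exact absurd (he.trans hf.symm) hea
            · exact absurd (hf.trans he.symm) (ne_of_lt (lt_of_le_of_lt re.1 re.2.1))
            · exact hf.trans he.symm
            · exact absurd (hf.trans he.symm) hfc
          subst ht
          have k' := (h.v'.2 (f2, e2) hem).2.2.2.2.1 f1 le_rfl rf.2.1
          have k := (h.v.2 (f2, e2) ((h.m _).2 hem)).2.2.2.2.1 f1 le_rfl rf.2.1
          simp only at k k'
          have hy := k'.1 hfe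
          rw [k]
          have hym := mem1 hy
          have hne : ((f1, e2) : Fin (n + 1) × Fin (n + 1)) ≠ (f2, e2) := by
            intro hh
            rw [Prod.mk.injEq] at hh
            exact absurd hh.1 (ne_of_lt rf.2.1)
          rw [flip hn hne ((h.m _).2 hym.1) ((h.m _).2 hym.2), A2 h.v f2 rf.2.1 re.2.1
            ((h.m _).2 hym.1), hD, ← A2 h.v' f2 rf.2.1 re.2.1 hym.1,
            ← flip hn' hne hym.1 hym.2]
          exact hy
    · by_cases hfc : f2 = c
      · subst hfc
        -- f = y; e = (e1, e2), e2 ≠ c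
        have hea : e1 = f1 := by
          rcases hf with hf | hf <;> rcases he with he | he
          · exact he.trans hf.symm
          · exact absurd (hf.trans he.symm) (ne_of_lt (lt_of_le_of_lt re.1 re.2.1))
          · exact absurd (he.trans hf.symm) (ne_of_lt (lt_of_lt_of_le re.2.1 re.2.2))
          · exact absurd (he.trans hf.symm) hec
        subst hea
        exact A1 e2 hfe
      · exact (h.s2 _ _ x hf he hfc hec).2 hfe
  · by_cases hea : e1 = a
    · subst hea
      by_cases hfc : f2 = c
      · subst hfc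
        -- f = (f1, c), f1 ≠ a ; e = (a, e2)
        have h1 : e1 < f1 := lt_of_le_of_ne rf.1 (Ne.symm hfa)
        by_cases hec : e2 = f2
        · subst hec
          rw [A2 h.v f1 h1 rf.2.1 ((h.m _).2 hem), hD, ← A2 h.v' f1 h1 rf.2.1 hem]
          exact hfe
        · have ht : f1 = e2 := by
            rcases hf with hf | hf <;> rcases he with he | he
            · exact absurd (hf.trans he.symm) hfa
            · exact hf.trans he.symm
            · exact absurd (he.trans hf.symm) (ne_of_lt (lt_of_lt_of_le re.2.1 re.2.2))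
            · exact absurd (he.trans hf.symm) hec
          subst ht
          -- f = (t, c), e = (a, t)
          have k' := (h.v'.2 (e1, f1) hem).2.2.2.1 f2 rf.2.1 le_rfl
          have k := (h.v.2 (e1, f1) ((h.m _).2 hem)).2.2.2.1 f2 rf.2.1 le_rfl
          simp only at k k'
          exact k.2 (A1 f1 (k'.1 hfe))
      · by_cases hec : e2 = c
        · subst hec
          -- e = y, f = (f1, f2), f1 ≠ a, f2 ≠ c: no common wire
          exfalso
          rcases hf with hf | hf <;> rcases he with he | he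
          · exact hfa (hf.trans he.symm)
          · exact absurd (hf.trans he.symm) (ne_of_lt (lt_of_lt_of_le rf.2.1 rf.2.2))
          · exact absurd (he.trans hf.symm) (ne_of_lt (lt_of_le_of_lt rf.1 rf.2.1))
          · exact hfc (hf.trans he.symm)
        · exact (h.s2 _ _ x hf he hfc hec).2 hfe
    · exact (h.s1 _ _ x hf he hfa hea).2 hfe

end Pool.Agent.X211.BSE
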